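import Mathlib
import Pool.Agent.Results.MP_d025d0_nt.NormalOrder
import Pool.Agent.V11109.DEC.Norm

/-!
# The normal orders of `S(n)` and `S_2(n)` along sparse sequences

Let `p > 1` be a real number. There is a set `A₀` of real numbers of Hausdorff dimension smaller than
one such that the following holds for all `α > 0` outside `A₀`, with `t_j = ⌊α j ^ p⌋` (there are about
`X ^ (1 / p)` terms up to `X`), and all integers `q ≥ 1`: for all `ε > 0` and `C` for 100% of the `j`, with `n = q t_j`,
one has `|S(n) / log log n - e^(-γ)| < ε` and `S(n) > C`, and the same for `S_2(n)`.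
-/

set_option autoImplicit false

namespace Pool.Agent.Results.MP_d025d0_nt.SparseNormalOrder

open Filter N435e839e

open Pool.Agent.V11109.DEC (nterm Few)

/-- `|T(n) / log log n - e^(-γ)| ≥ ε` -/
def Off (T : ℕ → ℝ) (ε : ℝ) (n : ℕ) : Prop :=
  ε ≤ |T n / Real.log (Real.log n) - Real.exp (-Real.eulerMascheroniConstant)|

/-- `T(n) ≤ C` -/
def AtMost (T : ℕ → ℝ) (C : ℝ) (n : ℕ) : Prop := T n ≤ C

/-- `T` has the normal order `e^(-γ) log log n`, and tends to infinity, for 100% of the terms `q t_j` -/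
def Law (p : ℝ) (A₀ : Set ℝ) (T : ℕ → ℝ) : Prop :=
  ∀ q : ℕ, 1 ≤ q → ∀ η : ℝ, 0 < η → (∀ ε : ℝ, 0 < ε → Few p A₀ η q (Off T ε)) ∧
    ∀ C : ℝ, Few p A₀ η q (AtMost T C)

/-- **Main result.** -/
theorem result (p : ℝ) (hp : 1 < p) : ∃ A₀ : Set ℝ, dimH A₀ < 1 ∧
    Law p A₀ (fun n => totalSum false n) ∧ Law p A₀ (fun n => roughSum false n) := by
  classical
  obtain ⟨r1, r2, r3, r4⟩ := NormalOrder.result
  obtain ⟨A, hA, h⟩ := Pool.Agent.V11109.DEC.Norm.normal_order p hp
    (fun n => totalSum false n / Real.log (Real.log n) - Real.exp (-Real.eulerMascheroniConstant))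
    (fun n => totalSum false n) (fun ε hε => by
      refine (r2 ε hε).congr fun N => ?_
      congr 2) (fun C => by
      refine (r4 C).congr fun N => ?_
      congr 2)
  obtain ⟨B, hB, h'⟩ := Pool.Agent.V11109.DEC.Norm.normal_order p hp
    (fun n => roughSum false n / Real.log (Real.log n) - Real.exp (-Real.eulerMascheroniConstant))
    (fun n => roughSum false n) (fun ε hε => by
      refine (r1 ε hε).congr fun N => ?_
      congr 2) (fun C => by
      refine (r3 C).congr fun N => ?_
      congr 2)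
  refine ⟨A ∪ B, ?_, fun q hq η hη => ⟨fun ε hε => ?_, fun C => ?_⟩,
    fun q hq η hη => ⟨fun ε hε => ?_, fun C => ?_⟩⟩
  · rw [dimH_union]
    exact max_lt hA hB
  · exact Pool.Agent.V11109.DEC.Norm.mono_few ((h q hq η hη).1 ε hε) (fun _ hn => hn)
      Set.subset_union_left
  · exact Pool.Agent.V11109.DEC.Norm.mono_few ((h q hq η hη).2 C) (fun _ hn => hn)
      Set.subset_union_left
  · exact Pool.Agent.V11109.DEC.Norm.mono_few ((h' q hq η hη).1 ε hε) (fun _ hn => hn)
      Set.subset_union_right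
  · exact Pool.Agent.V11109.DEC.Norm.mono_few ((h' q hq η hη).2 C) (fun _ hn => hn)
      Set.subset_union_right

end Pool.Agent.Results.MP_d025d0_nt.SparseNormalOrder
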